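import Pool.Agent.Lib.MP_f0b71a_alC.Cen
import Pool.Agent.Lib.MP_f0b71a_al.Main
import Pool.Agent.Lib.MP_f0b71a_al.Dir

/-!
# Pairs of Burch modules whose directions are not all multiples of one central exterior element

`R` is any commutative noetherian local ring with maximal ideal `𝔪` and residue field `k`, and `M`, `N` are
finitely generated Burch modules. A direction of `M` (`Directions R M`) is a composition `𝔪 → M → k` of
two `R`-linear maps. `M` is a Burch module if and only if it has a nonzero direction (`isBurch_iff` in the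
library).

`MinRes R` is the type of the minimal free resolutions `P` of `k`; `P.b n = dim_k Ext^n(k, k)` is the
Betti number `β_n(k)`. `Res R M` is the type of the resolutions `F` of `M` by finitely generated free
modules; `TorR F N n` is the homology of `F ⊗ N` and `ExtR F N n` is the cohomology of `Hom(F, N)`.
Both exist (`exists_minRes`, `exists_res` in the library). `muTor F N n` and `muExt F N n` are
their minimal numbers of generators, `cx` and `curv` are the complexity and the curvature of a
sequence, with the definitions of the problem.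

A linear map `χ : 𝔪 → k` is an element of `Ext^1(k, k)`. `Central P χ` says that it is central, in the
graded sense, in the Yoneda algebra `Ext(k, k)`: `χ u = (-1)^n u χ` for all `u` in `Ext^n(k, k)`.
`SqZero P χ` says that `χ χ = 0` (this follows if the characteristic of `k` is not two).

First statement: if `M` and `N` have linearly independent directions then
`β_{n+2}(k) ≤ μ(Tor_{n+2}(M, N)) + 2 μ(Tor_{n+1}(M, N)) + μ(Tor_n(M, N))`, and the same for `Ext`.

Second statement: unless all directions of `M` and of `N` are multiples of one central `χ` with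
`χ χ = 0`, the complexity and the curvature of `k` are at most those of `Tor(M, N)` and of `Ext(M, N)`.
-/

universe u

namespace Pool.Agent.Results.MP_f0b71a_al.NoncentralDirections

open IsLocalRing Pool.Agent.Lib.MP_f0b71a_al Pool.Agent.Lib.MP_f0b71a_alC

theorem result {R : Type u} [CommRing R] [IsLocalRing R] [IsNoetherianRing R]
    {M : Type u} [AddCommGroup M] [Module R M] [Module.Finite R M]
    {N : Type u} [AddCommGroup N] [Module R N] [Module.Finite R N]
    (hM : IsBurch R M) (hN : IsBurch R N) (P : MinRes R) (F : Res R M) :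
    (∀ χ ∈ Directions R M, ∀ ψ ∈ Directions R N, LinearIndependent (ResidueField R) ![χ, ψ] →
      (∀ n, P.b (n + 2) ≤ muTor F N (n + 2) + 2 * muTor F N (n + 1) + muTor F N n) ∧
      (∀ n, P.b (n + 2) ≤ muExt F N (n + 3) + 2 * muExt F N (n + 2) + muExt F N (n + 1))) ∧
    ((¬ ∃ χ : maximalIdeal R →ₗ[R] ResidueField R, Central P χ ∧ SqZero P χ ∧
        ∀ φ ∈ Directions R M ∪ Directions R N, ∃ c : ResidueField R, φ = c • χ) →
      cx P.b ≤ cx (muTor F N) ∧ curv P.b ≤ curv (muTor F N) ∧
      cx P.b ≤ cx (muExt F N) ∧ curv P.b ≤ curv (muExt F N)) := by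
  refine ⟨fun χ hχ ψ hψ hi =>
    ⟨tor_independent hχ hψ hi P F, ext_independent hχ hψ hi P F⟩, fun h => ?_⟩
  have key : (Dom P.b (muTor F N)) ∧ Dom P.b (muExt F N) := by
    by_cases hi : ∃ χ ∈ Directions R M, ∃ ψ ∈ Directions R N,
        LinearIndependent (ResidueField R) ![χ, ψ]
    · obtain ⟨χ, hχ, ψ, hψ, hi⟩ := hi
      exact ⟨tor_indep_dom hχ hψ hi P F, ext_indep_dom hχ hψ hi P F⟩
    · push Not at hi
      obtain ⟨χ, hχ, hχ0⟩ := isBurch_iff.1 hM
      obtain ⟨ψ, hψ, hψ0⟩ := isBurch_iff.1 hN
      have h1 : ∀ φ ∈ Directions R N, ∃ c : ResidueField R, φ = c • χ := by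
        intro φ hφ
        have h2 := hi χ hχ φ hφ
        rw [LinearIndependent.pair_iff' hχ0] at h2
        push Not at h2
        obtain ⟨a, ha⟩ := h2
        exact ⟨a, ha.symm⟩
      obtain ⟨c, hc⟩ := h1 ψ hψ
      have h2 : ∀ φ ∈ Directions R M, ∃ c : ResidueField R, φ = c • χ := by
        intro φ hφ
        have h3 := hi φ hφ ψ hψ
        rw [LinearIndependent.pair_symm_iff, LinearIndependent.pair_iff' hψ0] at h3
        push Not at h3
        obtain ⟨a, ha⟩ := h3
        exact ⟨a * c, by rw [← ha, hc, smul_smul]⟩
      have hc0 : c ≠ 0 := by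
        rintro rfl
        rw [zero_smul] at hc
        exact hψ0 hc
      have hχN : χ ∈ Directions R N := by
        obtain ⟨g, δ, hg⟩ := hψ
        refine ⟨g, c⁻¹ • δ, ?_⟩
        have h3 : χ = c⁻¹ • ψ := by rw [hc, smul_smul, inv_mul_cancel₀ hc0, one_smul]
        rw [h3, hg]
        rfl
      refine noncentral_dom hχ0 hχ hχN P F fun hcen => h ⟨χ, hcen.1, hcen.2, ?_⟩
      rintro φ (hφ | hφ)
      · exact h2 φ hφ
      · exact h1 φ hφ
  exact ⟨key.1.cx_le, key.1.curv_le, key.2.cx_le, key.2.curv_le⟩

end Pool.Agent.Results.MP_f0b71a_al.NoncentralDirections
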