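import Pool.Agent.Lib.MP_f0b71a_al.Main
import Pool.Agent.Lib.MP_f0b71a_al.Ex

/-!
# Pairs of Burch modules and primes of dimension at least two

`R` is any commutative noetherian local ring with residue field `k`, `M` and `N` are finitely generated
Burch modules (`IsBurch`, the definition of the problem).

`MinRes R` is the type of the minimal free resolutions `P` of `k`; `P.b n = dim_k Ext^n(k, k)` is the
Betti number `β_n(k)`. `Res R M` is the type of the resolutions `F` of `M` by finitely generated free
modules; `TorR F N n` is the homology of `F ⊗ N` and `ExtR F N n` is the cohomology of `Hom(F, N)`.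
Both exist (`exists_minRes`, `exists_res` in the library). `muTor F N n` and `muExt F N n` are
their minimal numbers of generators, `cx` and `curv` are the complexity and the curvature of a
sequence, with the definitions of the problem. `FinPD R M p` says that `M_p` has finite projective dimension over `R_p`.

If for every prime `p` with `dim R/p ≥ 2` the module `M_p` or the module `N_p` has finite projective
dimension, then the complexity and the curvature of `k` are at most those of `Tor(M, N)`. If for every
such prime `M_p` has finite projective dimension, then the same holds for `Ext(M, N)`. There is no other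
hypothesis on `R`. In particular both hold for all pairs of Burch modules if `dim R ≤ 1`, and also
if `R_p` is regular for all `p` with `dim R/p ≥ 2`.
-/

universe u

namespace Pool.Agent.Results.MP_f0b71a_al.SmallLocus

open IsLocalRing Pool.Agent.Lib.MP_f0b71a_al

theorem result {R : Type u} [CommRing R] [IsLocalRing R] [IsNoetherianRing R]
    {M : Type u} [AddCommGroup M] [Module R M] [Module.Finite R M]
    {N : Type u} [AddCommGroup N] [Module R N] [Module.Finite R N]
    (hM : IsBurch R M) (hN : IsBurch R N) (P : MinRes R) (F : Res R M) :
    ((∀ (p : Ideal R) [p.IsPrime], 2 ≤ ringKrullDim (R ⧸ p) → FinPD R M p ∨ FinPD R N p) →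
      cx P.b ≤ cx (muTor F N) ∧ curv P.b ≤ curv (muTor F N)) ∧
    ((∀ (p : Ideal R) [p.IsPrime], 2 ≤ ringKrullDim (R ⧸ p) → FinPD R M p) →
      cx P.b ≤ cx (muExt F N) ∧ curv P.b ≤ curv (muExt F N)) := by
  constructor
  · intro h
    have h1 : Dom P.b fun n => mu R (TorR F N n) := by
      refine tor_dom hM hN P F fun p hp h2 => ?_
      rcases h p h2 with h3 | h3
      · obtain ⟨s, hs, hk⟩ := h3.hty F
        exact ⟨s, hs, hk.killT N⟩
      · exact h3.killT F
    exact ⟨h1.cx_le, h1.curv_le⟩
  · intro h
    have h1 : Dom P.b fun n => mu R (ExtR F N n) := by
      refine ext_dom hM hN P F fun p hp h2 => ?_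
      obtain ⟨s, hs, hk⟩ := (h p h2).hty F
      exact ⟨s, hs, hk.killE N⟩
    exact ⟨h1.cx_le, h1.curv_le⟩

end Pool.Agent.Results.MP_f0b71a_al.SmallLocus
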